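import Pool.Agent.H52.FT.Final

/-!
# Universal supersequences with balanced suffixes

A universal supersequence in whose suffixes the letters occur almost equally often, for example
every universal supersequence that is a concatenation of permutations, has length at least
`n² - O(n log³ n)`.
-/

namespace Pool.Agent.H52.FT.Old.BalancedLower

/-- `γ` is a universal supersequence over the alphabet `Fin n`: every permutation of the alphabet,
written as the list of its values, is a subsequence of `γ`. -/
def Universal {n : ℕ} (γ : List (Fin n)) : Prop :=
  ∀ π : Equiv.Perm (Fin n), (List.ofFn π).Sublist γ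

/-- In every suffix `v` of `γ` the numbers of occurrences of two letters differ by at most `b`. -/
def SuffixBalanced {n : ℕ} (b : ℕ) (γ : List (Fin n)) : Prop :=
  ∀ v : List (Fin n), v <:+ γ → ∀ a a' : Fin n, v.count a ≤ v.count a' + b

/-- Universal words with `b`-balanced suffixes have length at least
`n² - 16 n (1 + log n)³ - b n (1 + log n)`. (A concatenation of permutations of the alphabet has
`1`-balanced suffixes, see `Pool.Agent.H52.FT.lower_concat`.) -/
theorem lower : ∀ (n b : ℕ), 1 ≤ n → ∀ γ : List (Fin n), Universal γ → SuffixBalanced b γ →
    (n : ℝ) ^ 2 - 16 * n * (1 + Real.log n) ^ 3 - b * n * (1 + Real.log n) ≤ γ.length :=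
  fun _ b hn γ hγ hb => Pool.Agent.H52.FT.lower_balanced hn b γ hγ hb

end Pool.Agent.H52.FT.Old.BalancedLower
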